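import Pool.Agent.Lib.P0036f5v4.UFinal

/-!
# Determinising 1-limited automata: one-letter alphabets and bounded languages

Over all input alphabets the cost `D(n)` of determinising 1-limited automata is `2 ^ (n ^ c)` with an
exponent `c` between `2` and `4` (`GrowthExponent`).  Here the exponent is determined: it is `2` for
one-letter alphabets and, more generally, for the machines whose language is contained in
`w₁* w₂* ⋯ wₖ*` with `k` fixed.

Let `D₁(n)` be the maximum, over the 1-limited automata of size at most `n` over a one-letter
alphabet, of the least size of an equivalent deterministic 1-limited automaton, and `D_{k,l}(n)` the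
same maximum over all finite input alphabets and all 1-limited automata of size at most `n` whose
language is contained in `w₁* ⋯ wₖ*` for some `k` words of total length at most `l`.  Then for all
`n ≥ 6` (`6` is the size of the smallest machine) and `k, l ≥ 1` these maxima exist and
`2 ^ ((n / 120000) ^ 2) ≤ D₁(n) ≤ D_{k,l}(n) ≤ l 2 ^ ((2 ⌈log₂ k⌉ + 6) n ^ 2)`.

Lower bound: over a one-letter alphabet a machine with `O(m)` states and `65` work symbols guesses
the rows, of length `W = m (m + 1)`, of a table in which the first row contains a number `P < 2 ^ W`
and the number `0`, and every other row the same `P` and the successor modulo `P + 1` of the second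
number of the row above.  The beginning of a row is checked by counting modulo `m` and modulo `m + 1`
from the preceding one; for the comparison with the row above the machine walks left, chooses a place
at a distance divisible by `m` with exactly one beginning of a row in between, and compares the
columns modulo `m + 1`.  Every check is one sweep to the left and back and begins on a fresh cell,
because only there the machine can recognise that it is back.  It rejects exactly the words whose
length has the form `6 (W L j + 1)`, where `L` is the least common multiple of `1, …, 2 ^ W`; so it
has `6 W L ≥ 2 ^ (2 ^ W - W)` residuals, while a deterministic 1-limited automaton with `K` states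
has at most `K 2 ^ (K ^ 2) + 1`.  (So one-way deterministic automata for this language need a double
exponential number of states: `exists_hard_dfa`.)

Upper bound: as in `GrowthExponent` (transition tables, blocks, one bit written in every cell), but
the reachability of a state from another along a factor is computed by recursion on the number of
powers of the words `wᵢ` in it: the machine tries all places where a power begins, and checks that a
factor is periodic, with period one of the words `wᵢ`, before it uses the (constant) answer for it.
-/

set_option autoImplicit false

namespace Pool.Agent.Results.MP_0036f5_lc.BoundedExponent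

open Pool.Agent.P0036f5v2 Pool.Agent.P0036f5v4

/-- `2 ^ ((n / 120000) ^ 2) ≤ D₁(n) ≤ D_{k,l}(n) ≤ l 2 ^ ((2 ⌈log₂ k⌉ + 6) n ^ 2)`. -/
theorem result (cv : Bool) (n k l : ℕ) (hn : 6 ≤ n) (hk : 1 ≤ k) (hl : 1 ≤ l) :
    ∃ d₁ d, IsGreatest (costsOn Unit cv n) d₁ ∧ IsGreatest (costsIn (Bdd k l) cv n) d ∧
      2 ^ ((n / 120000) ^ 2) ≤ d₁ ∧ d₁ ≤ d ∧ d ≤ l * 2 ^ ((2 * Nat.clog 2 k + 6) * n ^ 2) :=
  chain_main cv n k l hn hk hl

end Pool.Agent.Results.MP_0036f5_lc.BoundedExponent
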