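import Pool.Agent.Lib.P0036f5r.Main

/-!
# The size cost of determinising 1-limited automata and branching programs

`D(n)` is the maximum, over all 1-limited automata of size at most `n`, of the least size of an
equivalent deterministic 1-limited automaton.  For `V ≥ 1` let `BP(V)` be the least number of nodes
of a branching program that decides, for all digraphs with the vertices `0, …, V - 1`, whether the
vertex `1` is reachable from the vertex `0`.  We prove, for all `n ≥ 4` (`4` is the size of the
smallest machine), `2 ^ ((n / 3000) ^ 2) ≤ D(n) ≤ 2 ^ (n ^ 4)` and `D(n) ≤ BP(2 ^ (2 n ^ 2)) ^ 5`.
So `D(n)` is a single exponential, and it is `2 ^ Θ(n ^ 2)` if reachability has branching programs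
of polynomial size, that is, if `NL ⊆ L/poly`.
The Boolean `cv` chooses between the two conventions for transitions that would change the content
of a frozen cell (they can be used without effect on the tape, or they cannot be used).

Upper bounds: a 1-limited automaton with `k` states is simulated by a one-way nondeterministic
automaton with `N = k 2 ^ (k ^ 2)` states (transition tables).  A deterministic 1-limited automaton
simulates the latter: the input is cut into blocks of length `N`; at the first visit of the cell
number `q` of a block the machine writes, besides the input letter, one bit telling whether state
`q` is reachable at the beginning of the block; this bit is computed, before the cell is visited,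
from the previous block.  This is a reachability question in a layered digraph with at most
`(2 N + 1) N` vertices, whose edges are determined by the letters written in the previous block.
The machine answers it by divide and conquer (first bound), or by running a smallest branching
program for reachability in its finite control, walking to the cell that the current query asks
for (second bound).

Lower bound: the input is a sequence of blocks followed by a sequence of tests.  A block is a list of
pairs `(j, k)` written `b ^ k a ^ j` (`j ≤ m`, `k ≤ 2 m`), a test is a pair written `x ^ j y ^ k`.
The machine keeps the letters of one block and writes blanks on all other cells.  At the first `y` of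
a test it walks left with `j` in its state, chooses in the kept block a pair beginning with `j`,
reads its `k` and walks back to compare.  So it accepts if and only if one of the blocks contains
all tests.  It has `O(m)` states, and at least `2 ^ (2 ^ (m ^ 2))` residuals: the sets of pairs that
contain exactly one of `(j, k)`, `(j, k + m)` for all `j, k ≤ m` are not comparable.  A deterministic
1-limited automaton with `K` states has at most `K 2 ^ (K ^ 2) + 1` residuals.
-/

set_option autoImplicit false

namespace Pool.Agent.Results.MP_0036f5_lc.BranchingGrowth

open Pool.Agent.P0036f5v2 Pool.Agent.P0036f5r

/-- For every `n ≥ 4` the maximum `d = D(n)` and the minimum `K = BP(2 ^ (2 n ^ 2))` exist, and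
`2 ^ ((n / 3000) ^ 2) ≤ D(n) ≤ 2 ^ (n ^ 4)`, `D(n) ≤ BP(2 ^ (2 n ^ 2)) ^ 5`. -/
theorem result (cv : Bool) (n : ℕ) (hn : 4 ≤ n) :
    ∃ d K, IsGreatest (costs cv n) d ∧ IsLeast (bpSizes (2 ^ (2 * n ^ 2))) K ∧
      2 ^ ((n / 3000) ^ 2) ≤ d ∧ d ≤ 2 ^ (n ^ 4) ∧ d ≤ K ^ 5 :=
  P0036f5r.main cv n hn

end Pool.Agent.Results.MP_0036f5_lc.BranchingGrowth
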