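import Pool.Agent.Lib.P0036f5g.GFin

/-!
# Determinising 1-limited automata whose choices do not influence what is written

A 1-limited automaton has common writes if on every input all its computations write the same symbols
(its choices influence only its states and moves).  This class contains the machines that never
rewrite, that is, the two-way nondeterministic finite automata, the machines whose written symbols
depend only on the letter, for instance those that mark every cell they visit, and the deterministic
machines.  We prove that every such automaton of size at most `n` has an equivalent deterministic
1-limited automaton of size at most `n ^ (25 log₂ n + 225)`, for words of all lengths.  For 1-limited
automata in general the cost is at least `2 ^ (c n ^ 2)` (`GrowthExponent`): what costs an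
exponential is the nondeterministic choice of the written symbols.

Proof.  Let the automaton have `K` states; the input is cut into blocks of `K ^ 2 + K` cells.  In the
cell `n + 1` the deterministic machine writes its letter, the symbol which the automaton writes in the
cell `n`, and one bit; the bits written in a block describe the behaviour of the automaton on the part
of the input to the left of the preceding block (the pairs of states `p`, `q` such that, if all cells
of this part have been visited, the automaton can enter it from the right in state `p` and leave it to
the right in state `q`, and the set of states in which this part can be left for the first time).
The symbol and the bit are computed, after the visit of the cell `n` and before that of the cell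
`n + 1`, from the contents of at most two blocks: these are questions about reachability in a graph
with `O(K ^ 5)` vertices (first cell not visited, head position, state) whose edges are found by
walking on the tape, and they are answered in the finite control by the divide and conquer of
Savitch's theorem, with `K ^ O(log K)` states.  For the symbol in the cell `n` one looks for a state
in which this cell can be entered for the first time and from which there is a transition on its
letter; all such transitions write the same symbol.
-/

set_option autoImplicit false

namespace Pool.Agent.Results.MP_0036f5_lc.CommonWrites

open Pool.Agent.P0036f5v2 Pool.Agent.P0036f5w Pool.Agent.P0036f5g

/-- For every `n ≥ 4` the maximum cost for the 1-limited automata with common writes exists and is at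
most `n ^ (25 log₂ n + 225)`; the machines that never rewrite, those whose written symbols depend only
on the letter, and the deterministic ones belong to this class. -/
theorem result :
    (∀ (A : Type) (M : Mach A), NeverRewrites M → LetterDet M) ∧
    (∀ (A : Type) (M : Mach A) (cv : Bool), LetterDet M → CommonWrites M cv) ∧
    (∀ (A : Type) (M : Mach A) (cv : Bool), M.Det → CommonWrites M cv) ∧
    ∀ (cv : Bool) (n : ℕ), 4 ≤ n →
      ∃ d, IsGreatest (costsFor (fun _ M => CommonWrites M cv) cv n) d ∧
        d ≤ n ^ (25 * Nat.log 2 n + 225) :=
  ⟨fun _ M h => letterDet_of_neverRewrites M h, fun _ M cv h => common_of_letterDet M h cv,
    fun _ M cv h => common_of_det M h cv, main_common⟩

end Pool.Agent.Results.MP_0036f5_lc.CommonWrites
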