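import Pool.Agent.Lib.P0036f5f.Main

/-!
# Determinising 1-limited automata that change at most `k` cells

Let `D_k(n)` be the largest cost of determinising a 1-limited automaton of size at most `n` which on
no input changes more than `k` cells (`k = 0`: in essence the two-way nondeterministic automata).  We
prove lower and upper bounds for `D_k(n)` for all `k` and all `n ≥ 4`.  In particular

* `D_k(n) = 2 ^ Θ(n)` for each fixed `k ≥ 1`;
* `D_k(n) ≤ 2 ^ (n * polylog n)` for all `k ≤ √n`, and `√n` is a threshold:
  `D_k(n) ≥ 2 ^ (n ^ (3/4 - o(1)) * k ^ (1/2))` for `1 ≤ k ≤ n ^ (3/2)`;
* `2 ^ (c * n ^ 2) ≤ D_k(n) ≤ 2 ^ (C * n ^ 2 * log k)` for `k ≥ n ^ 2`: the exponent is `n ^ 2` up to a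
  factor `O(log n)` if `n ^ 2 ≤ k ≤ poly n`.

Upper bounds.  The behaviour of the automaton on a prefix of the input depends on what it has written
in the changed cells of the prefix; it is described by a table (for which pairs `p`, `q` of states can
it enter the prefix from the right in the state `p` and leave it in the state `q`, and in which states
can it leave the prefix for the first time).  The cells of the input are grouped into blocks; in each
block the deterministic automaton writes a list of all pairs (number of changed cells, table) that
are possible for the prefix in front of the preceding block, one bit per cell, together with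
auxiliary tables of the segments of unchanged cells of length `2 ^ s` (a segment tree).  The bits are
questions about reachability in graphs and are answered in the finite control by the divide and
conquer of Savitch's theorem; the changed cells of the last two blocks are guessed.  There are
`(k + 1) * 2 ^ O(n ^ 2)` pairs, whence the exponent `n ^ 2 * log k`.  For the first bound one lists
instead of the tables the frontiers: the sets of pairs (state, number of changes made before) in which
a computation that repeats no configuration at the boundary crosses it in either direction; there are
`2 ^ O(k n)` of them.  For the third bound one lists sparse tables: a minimal set of entries of the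
table of a prefix, of a segment or of the rest of the input that suffices for an accepting computation
has at most `O(min (n + k √n, k + n √k))` entries.  Indeed it preserves the reachability between the at most
`k + 1` pairs of states at which an accepting computation enters and leaves it, critical entries are
few, and among the others two sources have at most one common target, as in the theory of
reachability preservers.

Lower bounds.  Let the input begin with blocks that describe the members of a set `X` of subsets of a
set `E`, followed by a test that describes one subset; the automaton accepts if the latter is a member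
of `X`.  A deterministic 1-limited automaton with `d` states has at most `2 ^ O(d ^ 2)` behaviours on
prefixes, so `d ^ 2` is at least about `2 ^ |E|`.  The nondeterministic automaton marks one block and
compares it with the test.  For the exponent `min (k, n ^ 2)` the set `E` consists of the entries of a
matrix and each cell of the test is marked.  For the exponent `n ^ (3/4 - o(1)) * k ^ (1/2)` the set `E`
consists of the edges of a system of paths in a layered graph with about `n` vertices, and the test
lists the paths; only the first letters of the rows of the test (one for each path) and of the groups
of rows are marked when they are reached.  Between the test and the block the automaton carries one vertex and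
one bit only; the marks tell it up to which row it has come, not in which row or segment it is, and
the uniqueness of the paths makes sure that each segment of each row is compared.  The path system is
constructed from a grid of high dimension (for each path the steps are equal, and strict convexity
makes it unique), as for sets without three-term progressions.
-/

set_option autoImplicit false

namespace Pool.Agent.Results.MP_0036f5_lc.FewRewrites

open Pool.Agent.P0036f5v2 Pool.Agent.P0036f5w Pool.Agent.P0036f5g Pool.Agent.P0036f5k
  Pool.Agent.P0036f5b Pool.Agent.P0036f5d Pool.Agent.P0036f5f

/-- For all `k`, all `n ≥ 4` and both conventions the maximum cost for the 1-limited automata that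
change at most `k` cells exists and lies between the given bounds. -/
theorem result (cv : Bool) (k n : ℕ) (hn : 4 ≤ n) :
    ∃ d, IsGreatest (costsFor (fun _ M => FewWrites M cv k) cv n) d ∧
      (1 ≤ k → 2 ^ max (n / 2000) (max (min k (n ^ 2) / 1000000000)
        (Nat.sqrt (Nat.sqrt (n ^ 3 * (min k (Nat.sqrt (n ^ 3))) ^ 2)) /
          2 ^ (9 * Nat.sqrt (Nat.log 2 n) + 80))) ≤ d) ∧
      d ≤ 2 ^ min (300 * (k + 1) ^ 2 * n) (min (1000 * n ^ 2 * (Nat.log 2 (k + 1) + 1))
        (30000 * (Nat.log 2 n + 1) * (Nat.log 2 (k + 1) + 1) *
          min (n + k * Nat.sqrt n) (k + n * (Nat.sqrt k + 1)))) := by
  obtain ⟨d, hd, h1, h2, h3, h4, h5, h6⟩ := main_every cv k n hn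
  refine ⟨d, hd, fun hk => ?_, ?_⟩
  · rcases max_choice (n / 2000) (max (min k (n ^ 2) / 1000000000)
        (Nat.sqrt (Nat.sqrt (n ^ 3 * (min k (Nat.sqrt (n ^ 3))) ^ 2)) /
          2 ^ (9 * Nat.sqrt (Nat.log 2 n) + 80))) with h | h
    · rw [h]
      exact h4 hk
    · rw [h]
      rcases max_choice (min k (n ^ 2) / 1000000000)
        (Nat.sqrt (Nat.sqrt (n ^ 3 * (min k (Nat.sqrt (n ^ 3))) ^ 2)) /
          2 ^ (9 * Nat.sqrt (Nat.log 2 n) + 80)) with h | h
      · rw [h]
        exact h6
      · rw [h]
        exact h5 hk
  · rcases min_choice (300 * (k + 1) ^ 2 * n) (min (1000 * n ^ 2 * (Nat.log 2 (k + 1) + 1))
        (30000 * (Nat.log 2 n + 1) * (Nat.log 2 (k + 1) + 1) *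
          min (n + k * Nat.sqrt n) (k + n * (Nat.sqrt k + 1)))) with h | h
    · rw [h]
      exact h1
    · rw [h]
      rcases min_choice (1000 * n ^ 2 * (Nat.log 2 (k + 1) + 1))
        (30000 * (Nat.log 2 n + 1) * (Nat.log 2 (k + 1) + 1) *
          min (n + k * Nat.sqrt n) (k + n * (Nat.sqrt k + 1))) with h | h
      · rw [h]
        exact h3
      · rw [h]
        exact h2

end Pool.Agent.Results.MP_0036f5_lc.FewRewrites
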